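import Pool.Agent.V1193.BlocksQ2

/-!
# The dual of the martingale Hardy space is not the Lipschitz class

On `ℕ × {0, 1}` with `Σ₁` generated by the first coordinate and `Σ_k` everything for `k ≥ 2` there is a
bounded function `g` such that `f ↦ ∫ f g` is bounded in the quasi-norm of `H_p`, while every function
representing this functional has infinite Lipschitz norm, even in the localized form in which the
supremum norm of `dg_k` is taken over the set `A` only.
-/

set_option autoImplicit false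

namespace Pool.Agent.Results.MP_fbca0c_an.DualNotLipschitz

open MeasureTheory Pool.Agent.V1193.Blocks
open scoped ENNReal NNReal

/-- For all `0 < p < 1 < q` there are a filtered probability space and a bounded function `g` such that
`f ↦ ∫ f g dμ` is bounded on `L_∞` in the quasi-norm of `H_p`, but every integrable function `g'` that
represents this functional has infinite norm in `Λ_{p,q}`, in the stated and in the localized form. -/
theorem result (p q : ℝ) (hp : 0 < p) (hp1 : p < 1) (_ : 1 < q) :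
    ∃ (Ω : Type) (m0 : MeasurableSpace Ω) (μ : Measure Ω) (_ : IsProbabilityMeasure μ)
      (ℱ : Filtration ℕ m0) (g : Ω → ℂ), (⨆ k, ℱ k = m0) ∧ MemLp g ⊤ μ ∧
        (∃ C : ℝ≥0, ∀ f : Ω → ℂ, MemLp f ⊤ μ → ‖∫ ω, f ω * g ω ∂μ‖ₑ ≤ C * hpNorm p μ ℱ f) ∧
        ∀ g' : Ω → ℂ, Integrable g' μ →
          (∀ f : Ω → ℂ, MemLp f ⊤ μ → ∫ ω, f ω * g' ω ∂μ = ∫ ω, f ω * g ω ∂μ) →
          lamNorm p q μ ℱ g' = ⊤ ∧ lamNormLoc p q μ ℱ g' = ⊤ := by
  refine ⟨ℕ × Bool, inferInstance, mu2, mu2_prob, fil2, gg p, fil2_gen, gg_top p hp hp1,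
    ⟨Real.toNNReal (2 * 2 ^ (1 / p)), fun f hf => pair_bound p hp hp1 f hf⟩, ?_⟩
  intro g' _ h
  rw [eq_of_pairing (gg p) g' h]
  have h1 := lam_infinite p q hp hp1
  refine ⟨?_, h1⟩
  rw [← top_le_iff, ← h1]
  exact lamNormLoc_le p q mu2 fil2 (gg p)

end Pool.Agent.Results.MP_fbca0c_an.DualNotLipschitz
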