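import Pool.Agent.V1193.BlocksQ1

/-!
# The atomic block quasi-norm is not equivalent to the quasi-norm of the martingale Hardy space

On `{0, 1} × ℕ` with the filtration trivial, first coordinate, everything, the functions
`c (1_{(0,n)} - 1_{(1,n)})` are atomic blocks of bounded size whose first nonzero martingale difference
is constant in modulus on the whole space and unbounded in `L_p`.
-/

set_option autoImplicit false

namespace Pool.Agent.Results.MP_fbca0c_an.NotEquivalent

open MeasureTheory Pool.Agent.V1193.Blocks
open scoped ENNReal NNReal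

/-- For all `0 < p < 1 < q` there is a filtered probability space such that for every constant `C` some
bounded function `f` satisfies `C ‖f‖_atb < ‖f‖_{H_p}`. -/
theorem result (p q : ℝ) (hp : 0 < p) (hp1 : p < 1) (hq : 1 < q) :
    ∃ (Ω : Type) (m0 : MeasurableSpace Ω) (μ : Measure Ω) (_ : IsProbabilityMeasure μ)
      (ℱ : Filtration ℕ m0), (⨆ k, ℱ k = m0) ∧
        ∀ C : ℝ≥0, ∃ f : Ω → ℂ, MemLp f ⊤ μ ∧ C * atbNorm p q μ ℱ f < hpNorm p μ ℱ f :=
  ⟨Bool × ℕ, inferInstance, mu1, mu1_prob, fil1, fil1_gen, fun C => q1_false p q hp hp1 hq C⟩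

end Pool.Agent.Results.MP_fbca0c_an.NotEquivalent
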